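import Pool.Agent.T9h50.AN.Sparse

set_option autoImplicit false

open MeasureTheory

namespace Pool.Agent.Results.MP_d0f69c_mp.FrozenAnnuli

/-- The Hilbert space `ℓ²(ℤᵈ)`. -/
def L2 (d : ℕ) : Type := lp (fun _ : Fin d → ℤ => ℂ) 2

/-- The `ℓ²` norm. -/
noncomputable instance instNorm (d : ℕ) : NormedAddCommGroup (L2 d) :=
  @lp.normedAddCommGroup (Fin d → ℤ) (fun _ => ℂ) 2 _ _

/-- The `ℓ²` inner product. -/
noncomputable instance instInner (d : ℕ) : InnerProductSpace ℂ (L2 d) :=
  @lp.instInnerProductSpace (Fin d → ℤ) ℂ _ (fun _ => ℂ) _ _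

/-- The underlying function of a vector of `ℓ²(ℤᵈ)`. -/
def coord {d : ℕ} (u : L2 d) : (Fin d → ℤ) → ℂ := (show lp (fun _ : Fin d → ℤ => ℂ) 2 from u)

/-- Bounded linear operators on a complex inner product space. -/
abbrev Op (E : Type) [NormedAddCommGroup E] [InnerProductSpace ℂ E] : Type := E →L[ℂ] E

/-- `-(discrete Laplacian) + ω` on functions (`true` codes `+1`, `false` codes `-1`). -/
noncomputable def act {d : ℕ} (ω : (Fin d → ℤ) → Bool) (u : (Fin d → ℤ) → ℂ)
    (j : Fin d → ℤ) : ℂ :=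
  -(∑ i : Fin d, ((u (j + Pi.single i 1) - u j) + (u (j - Pi.single i 1) - u j)))
    + (if ω j then (1 : ℂ) else -1) * u j

/-- The bounded operator `H` on `ℓ²(ℤᵈ)` acts as `-(discrete Laplacian) + ω`. -/
def IsAnderson {d : ℕ} (ω : (Fin d → ℤ) → Bool) (H : Op (L2 d)) : Prop :=
  ∀ u : L2 d, coord (H u) = act ω (coord u)

/-- `(H - z)⁻¹` -/
noncomputable def res {E : Type} [NormedAddCommGroup E] [InnerProductSpace ℂ E] (H : Op E) (z : ℂ) :
    Op E :=
  Ring.inverse (H - z • (1 : Op E))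

/-- `μ` is the spectral measure of `ψ`: a finite measure with Borel transform
`⟨ψ, (H - z)⁻¹ ψ⟩` off the real line. -/
def IsSpectralMeasure {E : Type} [NormedAddCommGroup E] [InnerProductSpace ℂ E]
    (H : Op E) (ψ : E) (μ : Measure ℝ) : Prop :=
  IsFiniteMeasure μ ∧ ∀ z : ℂ, z.im ≠ 0 →
    ∫ x, ((x : ℂ) - z)⁻¹ ∂μ = inner ℂ ψ (res H z ψ)

/-- All the spectral measures of `H` are singular with respect to Lebesgue measure. -/
def PurelySingular {E : Type} [NormedAddCommGroup E] [InnerProductSpace ℂ E] (H : Op E) : Prop :=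
  ∀ (ψ : E) (μ : Measure ℝ), IsSpectralMeasure H ψ μ → μ ⟂ₘ volume

/-- The sup norm of a site of `ℤ²`. -/
def supNorm (x : Fin 2 → ℤ) : ℝ := max |(x 0 : ℝ)| |(x 1 : ℝ)|

/-- There is a constant `C` such that for every infinite set `s` of radii one can freeze the
potential at the sites of a set `F`, contained in the thin square annuli
`n ≤ |x| ≤ n + C log (n + 2)` with `n ∈ s`, in such a way that every `±1` potential on `ℤ²` with
the prescribed values on `F`, whatever its values off `F`, has purely singular spectrum. -/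
theorem result :
    ∃ C : ℝ, ∀ s : Set ℕ, s.Infinite →
      ∃ (F : Set (Fin 2 → ℤ)) (p : (Fin 2 → ℤ) → Bool),
        (∀ x ∈ F, ∃ n ∈ s, (n : ℝ) ≤ supNorm x ∧ supNorm x ≤ n + C * Real.log (n + 2)) ∧
        ∀ ω : (Fin 2 → ℤ) → Bool, (∀ x ∈ F, ω x = p x) →
          ∀ H : Op (L2 2), IsAnderson ω H → PurelySingular H := by
  refine ⟨200000, fun s hs => ?_⟩
  obtain ⟨F, p, hF, hp⟩ := T9h50.AN.exists_frozen hs
  refine ⟨F, p, fun x hx => ?_, ?_⟩
  · obtain ⟨n, hn, hin, hout⟩ := hF x hx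
    refine ⟨n, hn, ?_, ?_⟩
    · rw [H12R2.And.mem_Q] at hout
      push Not at hout
      obtain ⟨i, hi⟩ := hout
      simp only [Pi.zero_apply, sub_zero] at hi
      have hi' : (n : ℝ) < |(x i : ℝ)| := by exact_mod_cast hi
      unfold supNorm
      fin_cases i
      · exact hi'.le.trans (le_max_left _ _)
      · exact hi'.le.trans (le_max_right _ _)
    · rw [H12R2.And.mem_Q] at hin
      have key : ∀ i, |(x i : ℝ)| ≤ n + 200000 * Real.log (n + 2) := by
        intro i
        have h1 := hin i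
        simp only [Pi.zero_apply, sub_zero] at h1
        have h2 : |(x i : ℝ)| ≤ ((n + 26 * T9h50.AN.mm n + 1 : ℕ) : ℝ) := by exact_mod_cast h1
        have h3 := T9h50.AN.thick n
        push_cast at h2 h3
        linarith
      exact max_le (key 0) (key 1)
  · intro ω hω H hH ψ μ hμ
    haveI := hμ.1
    exact T9h50.AN.purely_singular (hp ω hω) (H := H) (fun u j => congrFun (hH u) j) ψ μ hμ.2

end Pool.Agent.Results.MP_d0f69c_mp.FrozenAnnuli
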