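import Pool.Agent.T9h50.AN.Sparse
import Pool.Agent.T9h50.GC.Gen

set_option autoImplicit false

open MeasureTheory Filter

namespace Pool.Agent.Results.MP_d0f69c_mp.GenericSingularContinuous

/-- The Hilbert space `ℓ²(ℤᵈ)`. -/
def L2 (d : ℕ) : Type := lp (fun _ : Fin d → ℤ => ℂ) 2

/-- The `ℓ²` norm. -/
noncomputable instance instNorm (d : ℕ) : NormedAddCommGroup (L2 d) :=
  @lp.normedAddCommGroup (Fin d → ℤ) (fun _ => ℂ) 2 _ _

/-- The `ℓ²` inner product. -/
noncomputable instance instInner (d : ℕ) : InnerProductSpace ℂ (L2 d) :=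
  @lp.instInnerProductSpace (Fin d → ℤ) ℂ _ (fun _ => ℂ) _ _

/-- The underlying function of a vector of `ℓ²(ℤᵈ)`. -/
def coord {d : ℕ} (u : L2 d) : (Fin d → ℤ) → ℂ := (show lp (fun _ : Fin d → ℤ => ℂ) 2 from u)

/-- Bounded linear operators on a complex inner product space. -/
abbrev Op (E : Type) [NormedAddCommGroup E] [InnerProductSpace ℂ E] : Type := E →L[ℂ] E

/-- `-(discrete Laplacian) + ω` on functions (`true` codes `+1`, `false` codes `-1`). -/
noncomputable def act {d : ℕ} (ω : (Fin d → ℤ) → Bool) (u : (Fin d → ℤ) → ℂ)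
    (j : Fin d → ℤ) : ℂ :=
  -(∑ i : Fin d, ((u (j + Pi.single i 1) - u j) + (u (j - Pi.single i 1) - u j)))
    + (if ω j then (1 : ℂ) else -1) * u j

/-- The bounded operator `H` on `ℓ²(ℤᵈ)` acts as `-(discrete Laplacian) + ω`. -/
def IsAnderson {d : ℕ} (ω : (Fin d → ℤ) → Bool) (H : Op (L2 d)) : Prop :=
  ∀ u : L2 d, coord (H u) = act ω (coord u)

/-- `(H - z)⁻¹` -/
noncomputable def res {E : Type} [NormedAddCommGroup E] [InnerProductSpace ℂ E] (H : Op E) (z : ℂ) :
    Op E :=
  Ring.inverse (H - z • (1 : Op E))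

/-- `μ` is the spectral measure of `ψ`: a finite measure with Borel transform
`⟨ψ, (H - z)⁻¹ ψ⟩` off the real line. -/
def IsSpectralMeasure {E : Type} [NormedAddCommGroup E] [InnerProductSpace ℂ E]
    (H : Op E) (ψ : E) (μ : Measure ℝ) : Prop :=
  IsFiniteMeasure μ ∧ ∀ z : ℂ, z.im ≠ 0 →
    ∫ x, ((x : ℂ) - z)⁻¹ ∂μ = inner ℂ ψ (res H z ψ)

/-- All the spectral measures of `H` are singular with respect to Lebesgue measure. -/
def PurelySingular {E : Type} [NormedAddCommGroup E] [InnerProductSpace ℂ E] (H : Op E) : Prop :=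
  ∀ (ψ : E) (μ : Measure ℝ), IsSpectralMeasure H ψ μ → μ ⟂ₘ volume

/-- For Baire generic `±1` potentials `ω` on `ℤ²` (all `ω` in a dense `G_δ` subset of
`{±1}^{ℤ²}`) the spectrum of `-(discrete Laplacian) + ω` is purely singular continuous: all the
spectral measures are singular with respect to Lebesgue measure, and there are no eigenvectors. -/
theorem result :
    ∀ᶠ ω in residual ((Fin 2 → ℤ) → Bool), ∀ H : Op (L2 2), IsAnderson ω H →
      PurelySingular H ∧ ∀ (E : ℂ) (u : L2 2), H u = E • u → u = 0 := by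
  filter_upwards [T9h50.AN.generic_walls, T9h50.GC.generic_noeig (0 : Fin 2)] with ω hω hno H hH
  refine ⟨fun ψ μ hμ => ?_, fun E u hu => ?_⟩
  · have := hμ.1
    exact T9h50.AN.purely_singular hω (H := H) (fun u j => congrFun (hH u) j) ψ μ hμ.2
  · refine hno E u fun y => ?_
    have h1 : coord (H u) y = act ω (coord u) y := congrFun (hH u) y
    have h2 : coord (H u) y = E * coord u y := by rw [hu]; rfl
    exact h1.symm.trans h2

end Pool.Agent.Results.MP_d0f69c_mp.GenericSingularContinuous
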