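import Pool.Agent.T9h56.MX.Fin

/-!
# Absolutely continuous states of the Anderson model relax without time averages

`Δ_ω = -Δ + ω` on `ℤ^d`, `ω_j` iid with any law of bounded support which is not a point mass, for
instance `P(ω_j = ±1) = 1/2`. Let `A_ω` be bounded self-adjoint operators, bounded uniformly in `ω`
and covariant under translations, such that a change of the potential at the origin changes `A_ω` by
a compact operator. Let `f` be the microcanonical average of `A` (with `p(ω)` the part of `δ_0` in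
the absolutely continuous subspace and `κ = E ⟨p, 1_{(·)}(Δ_ω) p⟩`, `f dκ` is the measure
`E ⟨1_{(·)}(Δ_ω) p, A_ω p⟩`). Then for all measurable choices of states `φ(ω)`, `ψ(ω)` in the
absolutely continuous subspace of `Δ_ω` (if there are any)
`E ⟨e^{-isΔ_ω} φ, A_ω e^{-isΔ_ω} ψ⟩ → E ⟨φ, f(Δ_ω) ψ⟩` as `s → ∞` and as `s → -∞`: the dynamics on the
absolutely continuous subspace is strongly mixing. Taking `h(ω) ψ(ω)` with a bounded random variable
`h` instead of `ψ`, the quantum expectations at time `s` converge weakly as functions of `ω`.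
-/

set_option autoImplicit false

open MeasureTheory Filter Topology
open scoped BigOperators ENNReal NNReal InnerProductSpace

namespace Pool.Agent.Results.MP_d0f69c_mp.RelaxationOfACStates

/-- `ℓ²(ℤ^d)` -/
abbrev L2 (d : ℕ) : Type := lp (fun _ : Fin d → ℤ => ℂ) 2

/-- potentials on `ℤ^d` -/
abbrev Pot (d : ℕ) : Type := (Fin d → ℤ) → ℝ

/-- the operator of the problem, `(Δ_ω u)(j) = -∑_{|n|=1} (u(j+n) - u(j)) + ω_j u(j)` (the unit
vectors `n` are `± e_i`) -/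
noncomputable def H {d : ℕ} (ω : Pot d) (u : (Fin d → ℤ) → ℂ) (j : Fin d → ℤ) : ℂ :=
  -(∑ i : Fin d, ((u (j + Pi.single i 1) - u j) + (u (j - Pi.single i 1) - u j))) + (ω j : ℂ) * u j

/-- `U t = e^{-itΔ_ω}`: norm preserving maps of `ℓ²(ℤ^d)` with `U 0 = 1` and `i ∂_t (U_t u) = Δ_ω U_t u`
at every site -/
structure IsPropagator {d : ℕ} (ω : Pot d) (U : ℝ → L2 d → L2 d) : Prop where
  zero : ∀ u, U 0 u = u
  norm : ∀ t u, ‖U t u‖ = ‖u‖
  schrodinger : ∀ u t j, HasDerivAt (fun s => (U s u) j)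
    (-Complex.I * H ω (fun k => (U t u) k) j) t

/-- the law of iid variables with law `μ` on `ℤ^d` -/
noncomputable def iid (d : ℕ) (μ : Measure ℝ) : Measure (Pot d) :=
  Measure.infinitePi fun _ => μ

/-- `⟨A_ω u, w⟩ = ⟨u, A_ω w⟩`; such a map is linear -/
def Symmetric {d : ℕ} (A : Pot d → L2 d → L2 d) : Prop :=
  ∀ (ω : Pot d) (u w : L2 d), ⟪A ω u, w⟫_ℂ = ⟪u, A ω w⟫_ℂ

/-- bounded, uniformly in `ω` -/
def Bounded {d : ℕ} (A : Pot d → L2 d → L2 d) : Prop :=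
  ∃ M : ℝ, ∀ (ω : Pot d) (u : L2 d), ‖A ω u‖ ≤ M * ‖u‖

/-- `A_ω` maps measurable choices of vectors to measurable choices of vectors -/
def MeasurableField {d : ℕ} (μ : Measure ℝ) (A : Pot d → L2 d → L2 d) : Prop :=
  ∀ ψ : Pot d → L2 d, AEStronglyMeasurable ψ (iid d μ) →
    AEStronglyMeasurable (fun ω => A ω (ψ ω)) (iid d μ)

/-- covariant under translations -/
def Covariant {d : ℕ} (A : Pot d → L2 d → L2 d) : Prop :=
  ∀ (z : Fin d → ℤ) (ω : Pot d) (u w : L2 d), (∀ j, w j = u (j + z)) →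
    ∀ j, (A (fun k => ω (k + z)) w) j = (A ω u) (j + z)

/-- a change of the potential at the origin changes `A_ω` by a compact operator -/
def QuasilocalAtOrigin {d : ℕ} (A : Pot d → L2 d → L2 d) : Prop :=
  ∀ (ω : Pot d) (r : ℝ), IsCompactOperator fun u : L2 d => A (Function.update ω 0 r) u - A ω u

/-- `A_ω` is a quasilocal observable: bounded self-adjoint operators, bounded uniformly in `ω`,
measurable in `ω`, covariant under translations, and such that a change of the potential at the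
origin changes `A_ω` by a compact operator. Examples are all bounded self-adjoint translation
invariant operators, all self-adjoint finite range operators with covariant coefficients which are
bounded measurable functions of the potential at finitely many sites, and the self-adjoint elements
of the `C^*`-algebra generated by these (supremum norm over `ω`). -/
structure IsQuasilocalObservable {d : ℕ} (μ : Measure ℝ) (A : Pot d → L2 d → L2 d) : Prop where
  symmetric : Symmetric A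
  bounded : Bounded A
  measurable : MeasurableField μ A
  covariant : Covariant A
  quasilocal : QuasilocalAtOrigin A

/-- `m` is the spectral measure of `u`: the finite measure with
`⟨u, e^{-itΔ_ω} u⟩ = ∫ e^{-itE} dm(E)` -/
def IsSpectral {d : ℕ} (U : ℝ → L2 d → L2 d) (u : L2 d) (m : Measure ℝ) : Prop :=
  IsFiniteMeasure m ∧
    ∀ t : ℝ, ⟪u, U t u⟫_ℂ = ∫ E : ℝ, Complex.exp (-(Complex.I * t * E)) ∂m

/-- `u` is in the absolutely continuous subspace -/
def IsAC {d : ℕ} (U : ℝ → L2 d → L2 d) (u : L2 d) : Prop :=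
  ∃ m : Measure ℝ, IsSpectral U u m ∧ m ≪ volume

/-- `w = f(Δ_ω) u`: with the spectral measure `m` of `u`, `⟨e^{-itΔ_ω} u, w⟩ = ∫ e^{itE} f(E) dm(E)`
for all `t`, and `‖w‖² = ∫ f² dm` -/
def IsFunctionOf {d : ℕ} (U : ℝ → L2 d → L2 d) (f : ℝ → ℝ) (u w : L2 d) : Prop :=
  ∃ m : Measure ℝ, IsSpectral U u m ∧
    (∀ t : ℝ, ⟪U t u, w⟫_ℂ = ∫ E : ℝ, Complex.exp (Complex.I * t * E) * f E ∂m) ∧
    ‖w‖ ^ 2 = ∫ E, f E ^ 2 ∂m

/-- `ψ(ω)` is a measurable choice of a vector of norm at most one which is almost surely in the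
absolutely continuous subspace of `Δ_ω` -/
structure ACChoice {d : ℕ} (μ : Measure ℝ) (U : Pot d → ℝ → L2 d → L2 d)
    (ψ : Pot d → L2 d) : Prop where
  meas : AEStronglyMeasurable ψ (iid d μ)
  norm_le : ∀ ω, ‖ψ ω‖ ≤ 1
  ac : ∀ᵐ ω ∂(iid d μ), IsAC (U ω) (ψ ω)

/-- `p` is the orthogonal projection of `u` to the absolutely continuous subspace -/
def IsACPart {d : ℕ} (U : ℝ → L2 d → L2 d) (u p : L2 d) : Prop :=
  IsAC U p ∧ ∀ w : L2 d, IsAC U w → ⟪u - p, w⟫_ℂ = 0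

/-- `p(ω)` is the part of `δ_0` in the absolutely continuous subspace of `Δ_ω`, and the absolutely
continuous finite measure `κ` is the density of states of this subspace, that is,
`E ⟨p, e^{-itΔ_ω} p⟩ = ∫ e^{-itE} dκ(E)` for all `t` -/
structure IsDensity {d : ℕ} (μ : Measure ℝ) (U : Pot d → ℝ → L2 d → L2 d)
    (p : Pot d → L2 d) (κ : Measure ℝ) : Prop where
  meas : AEStronglyMeasurable p (iid d μ)
  part : ∀ᵐ ω ∂(iid d μ), IsACPart (U ω) (lp.single 2 0 1) (p ω)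
  finite : IsFiniteMeasure κ
  ac : κ ≪ volume
  fourier : ∀ t : ℝ, ∫ ω, ⟪p ω, U ω t (p ω)⟫_ℂ ∂(iid d μ) =
    ∫ E : ℝ, Complex.exp (-(Complex.I * t * E)) ∂κ

/-- the bounded Borel function `f` is the microcanonical average of the observable `A`:
`E ⟨e^{-itΔ_ω} p, A_ω p⟩ = ∫ e^{itE} f(E) dκ(E)` for all `t`. This determines `f` up to `κ`-null
sets. -/
structure IsMicrocanonical {d : ℕ} (μ : Measure ℝ) (U : Pot d → ℝ → L2 d → L2 d)
    (p : Pot d → L2 d) (κ : Measure ℝ) (A : Pot d → L2 d → L2 d)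
    (f : ℝ → ℝ) : Prop where
  meas : Measurable f
  bounded : ∃ M : ℝ, ∀ E, |f E| ≤ M
  formula : ∀ t : ℝ, ∫ ω, ⟪U ω t (p ω), A ω (p ω)⟫_ℂ ∂(iid d μ) =
    ∫ E : ℝ, Complex.exp (Complex.I * t * E) * f E ∂κ

/-- the mean matrix elements of the observable `A` at time `s` tend to those of `f(Δ_ω)`, as
`s → ∞` and as `s → -∞` -/
def Relaxes {d : ℕ} (μ : Measure ℝ) (U : Pot d → ℝ → L2 d → L2 d)
    (A : Pot d → L2 d → L2 d) (f : ℝ → ℝ) (φ ψ : Pot d → L2 d) : Prop :=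
  ∃ χ : Pot d → L2 d, AEStronglyMeasurable χ (iid d μ) ∧
    (∀ᵐ ω ∂(iid d μ), IsFunctionOf (U ω) f (ψ ω) (χ ω)) ∧
    Tendsto (fun s : ℝ => ∫ ω, ⟪U ω s (φ ω), A ω (U ω s (ψ ω))⟫_ℂ ∂(iid d μ))
      atTop (𝓝 (∫ ω, ⟪φ ω, χ ω⟫_ℂ ∂(iid d μ))) ∧
    Tendsto (fun s : ℝ => ∫ ω, ⟪U ω s (φ ω), A ω (U ω s (ψ ω))⟫_ℂ ∂(iid d μ))
      atBot (𝓝 (∫ ω, ⟪φ ω, χ ω⟫_ℂ ∂(iid d μ)))

open Pool.Agent.H5R2 Pool.Agent.Y662.ERG Pool.Agent.T9h56

theorem sol_of_prop {d : ℕ} {ω : (Fin d → ℤ) → ℝ} {U : ℝ → L2 d → L2 d}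
    (hU : IsPropagator ω U) (u : L2 d) :
    NB.IsSol (-1) (fun x => 2 * d + ω x) (fun t => U t u) (fun _ => 0) := by
  refine ⟨fun T => ⟨‖u‖, fun t _ => (hU.norm t u).le⟩, fun t x => ?_⟩
  have h := hU.schrodinger u t x
  have e := NB.FIN.hop_eq ω (fun k => (U t u) k) x
  have e2 : -Complex.I * (NB.hopf (-1) (fun y => (U t u) y) x +
      (((fun x => 2 * d + ω x) x : ℝ) : ℂ) * (U t u) x) + ((0 : L2 d) : (Fin d → ℤ) → ℂ) x =
      -Complex.I * H ω (fun k => (U t u) k) x := by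
    have e3 : H ω (fun k => (U t u) k) x = -(∑ i : Fin d,
        (((U t u) (x + Pi.single i 1) - (U t u) x) + ((U t u) (x - Pi.single i 1) - (U t u) x))) +
        (ω x : ℂ) * (U t u) x := rfl
    rw [e3, ← e]
    simp
  rw [e2]
  exact h

theorem prop_of_grp {d : ℕ} {ω : (Fin d → ℤ) → ℝ} {W : NB.UG (NB.L2 (NB.Site d))}
    (hW : NB.IsGrp (-1) (fun x => 2 * d + ω x) W) : IsPropagator ω (fun t u => W.U t u) := by
  refine ⟨W.zero', W.norm', fun u t x => ?_⟩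
  have h := (hW u).2 t x
  have e := NB.FIN.hop_eq ω (fun k => (W.U t u) k) x
  have e3 : H ω (fun k => (W.U t u) k) x = -(∑ i : Fin d,
        (((W.U t u) (x + Pi.single i 1) - (W.U t u) x) +
          ((W.U t u) (x - Pi.single i 1) - (W.U t u) x))) + (ω x : ℂ) * (W.U t u) x := rfl
  rw [e3, ← e]
  simpa using h

theorem prop_eq {d : ℕ} {ω : (Fin d → ℤ) → ℝ} {W : NB.UG (NB.L2 (NB.Site d))}
    (hW : NB.IsGrp (-1) (fun x => 2 * d + ω x) W) {U : ℝ → L2 d → L2 d}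
    (hU : IsPropagator ω U) (t : ℝ) (u : L2 d) : U t u = W.U t u := by
  have h := NB.ALL.a_UN d (-1) _ W hW (fun t => U t u) (fun _ => 0)
    continuous_const (sol_of_prop hU u) t
  simpa [hU.zero u] using h

theorem lin_of {d : ℕ} {A : L2 d → L2 d} (hs : ∀ u w : L2 d, ⟪A u, w⟫_ℂ = ⟪u, A w⟫_ℂ) :
    (∀ u w, A (u + w) = A u + A w) ∧ ∀ (c : ℂ) (u), A (c • u) = c • A u := by
  constructor
  · intro u w
    refine ext_inner_right ℂ fun x => ?_
    rw [hs, inner_add_left, inner_add_left, hs, hs]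
  · intro c u
    refine ext_inner_right ℂ fun x => ?_
    rw [hs, inner_smul_left, inner_smul_left, hs]

/-- the bounded operator -/
noncomputable def toOp {d : ℕ} (A : L2 d → L2 d)
    (hs : ∀ u w : L2 d, ⟪A u, w⟫_ℂ = ⟪u, A w⟫_ℂ) (hb : ∃ M : ℝ, ∀ u, ‖A u‖ ≤ M * ‖u‖) :
    L2 d →L[ℂ] L2 d :=
  LinearMap.mkContinuousOfExistsBound
    { toFun := A, map_add' := (lin_of hs).1, map_smul' := (lin_of hs).2 } hb

theorem obs_of {d : ℕ} {K : ℝ} {μ : Measure ℝ} [IsProbabilityMeasure μ]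
    {A : Pot d → L2 d → L2 d} (hA : IsQuasilocalObservable μ A) :
    ∃ (v : Pot d → L2 d →L[ℂ] L2 d) (M : ℝ), (∀ ω u, v ω u = A ω u) ∧
      MX.ObE (MX.envP d K μ) M v := by
  obtain ⟨M, hM⟩ := hA.bounded
  refine ⟨fun ω => toOp (A ω) (hA.symmetric ω) ⟨M, hM ω⟩, M, fun ω u => rfl,
    hA.symmetric, hM, hA.measurable, fun z S hS ω u => ?_, fun ω r => ?_⟩
  · ext j
    show (A (fun k => ω (k + z)) (S u)) j = (S (A ω u)) j
    rw [hA.covariant z ω u (S u) (fun k => hS u k) j, hS]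
  · exact hA.quasilocal ω r

/-- Let `d ≥ 1` and let `μ` be a law with bounded support which is not a point mass. For every
potential the unitary group exists and is unique. There are the part `p(ω)` of `δ_0` in the
absolutely continuous subspace and its density of states `κ` such that for every quasilocal
observable `A` there is a bounded Borel function `f`, not depending on `ω`, which is the
microcanonical average of `A` and has the following property: for all measurable choices of vectors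
`φ(ω)`, `ψ(ω)` of norm at most one in the absolutely continuous subspace of `Δ_ω`,
`E ⟨e^{-isΔ_ω} φ, A_ω e^{-isΔ_ω} ψ⟩ → E ⟨φ, f(Δ_ω) ψ⟩` as `s → ∞` and as `s → -∞`. -/
theorem result (d : ℕ) (hd : 1 ≤ d) (μ : Measure ℝ) [IsProbabilityMeasure μ]
    (hb : ∃ K : ℝ, ∀ᵐ r ∂μ, |r| ≤ K) (hμ : ∀ r : ℝ, μ {r} ≠ 1) :
    (∀ ω : Pot d, ∃! U : ℝ → L2 d → L2 d, IsPropagator ω U) ∧
    ∀ U : Pot d → ℝ → L2 d → L2 d, (∀ ω, IsPropagator ω (U ω)) →
      ∃ (p : Pot d → L2 d) (κ : Measure ℝ), IsDensity μ U p κ ∧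
        ∀ A : Pot d → L2 d → L2 d, IsQuasilocalObservable μ A →
          ∃ f : ℝ → ℝ, IsMicrocanonical μ U p κ A f ∧
            ∀ φ ψ : Pot d → L2 d, ACChoice μ U φ → ACChoice μ U ψ → Relaxes μ U A f φ ψ := by
  obtain ⟨K, hK⟩ := hb
  refine ⟨fun ω => ?_, fun U hU => ?_⟩
  · obtain ⟨W, hW⟩ := NB.ALL.a_EX d (-1) (fun x => 2 * d + ω x)
    refine ⟨fun t u => W.U t u, prop_of_grp hW, fun U hU => ?_⟩
    funext t u
    exact prop_eq hW hU t u
  · choose ev hev using fun ω : NB.Site d → ℝ => NB.ALL.a_EX d (-1) (fun x => 2 * d + ω x)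
    have hUe : ∀ ω t u, U ω t u = (ev ω).U t u := fun ω t u => prop_eq (hev ω) (hU ω) t u
    obtain ⟨κ, hκ1, hκ2, hκ3, hmain⟩ := MX.main_mix (d := d) hd hK hμ
    have hbd : ∀ᵐ ω ∂(iid d μ), ∀ x, |ω x| ≤ K := bd_ae (d := d) hK
    have hUx : ∀ ω : (Fin d → ℤ) → ℝ, (∀ x, |ω x| ≤ K) → ∀ t u,
        U ω t u = Ex (Pool.Agent.TH980.IM.HV K ω) t u := fun ω h1 t u => by
      rw [hUe, grp_Ex h1 (hev ω)]
    have hac_iff : ∀ ω : (Fin d → ℤ) → ℝ, (∀ x, |ω x| ≤ K) → ∀ u : L2 d,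
        IsAC (U ω) u ↔ Pool.Agent.TH980.IM.spm (Pool.Agent.TH980.IM.HV_sa K ω) u ≪ volume := by
      intro ω h1 u
      constructor
      · rintro ⟨m, ⟨hm1, hm2⟩, hm3⟩
        have hmm : m = Pool.Agent.TH980.IM.spm (Pool.Agent.TH980.IM.HV_sa K ω) u :=
          spm_unique _ u m fun t => by rw [← hUx ω h1, hm2 t]
        rw [← hmm]
        exact hm3
      · intro h
        refine ⟨_, ⟨inferInstance, fun t => ?_⟩, h⟩
        rw [hUx ω h1, Ex_spm]
    refine ⟨fun ω => PA K ω (NB.dl 0), κ, ⟨?_, ?_, hκ1, hκ2, fun t => ?_⟩, fun A hA => ?_⟩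
    · exact PA_aesm K μ aestronglyMeasurable_const
    · filter_upwards [hbd] with ω h1
      refine ⟨(hac_iff ω h1 _).2 (acP_ac _ _), fun w hw => ?_⟩
      exact acP_orth _ ((hac_iff ω h1 w).1 hw) _
    · rw [← hκ3 t]
      refine integral_congr_ae ?_
      filter_upwards [hbd] with ω h1
      rw [hUx ω h1]
    obtain ⟨v, M, hvA, hO⟩ := obs_of (K := K) hA
    obtain ⟨f, B, hf1, hf2, hBf, hB, hmic, hlim⟩ := hmain v M hO
    refine ⟨f, ⟨hf1, ⟨M, hf2⟩, fun t => ?_⟩, fun φ ψ ⟨hφ, hφ1, hφa⟩ ⟨hψ, hψ1, hac⟩ => ?_⟩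
    · rw [← hmic t]
      refine integral_congr_ae ?_
      filter_upwards [hbd] with ω h1
      rw [hUx ω h1, ← hvA]
    have hB' : ∀ᵐ ω ∂(iid d μ), (∀ x, |ω x| ≤ K) ∧
          (∀ x, B ω (Pool.Agent.TH980.IM.HV K ω x) =
            Pool.Agent.TH980.IM.HV K ω (B ω x)) ∧
          ∀ ψ, ∀ᵐ E : ℝ, Ngl (Pool.Agent.TH980.IM.HV K ω) E (B ω ψ - ((f E : ℝ) : ℂ) • ψ) := hB
    have hconv : ∀ l : Filter ℝ, (l = atTop ∨ l = atBot) →
        Tendsto (fun s : ℝ => ∫ ω, ⟪U ω s (φ ω), A ω (U ω s (ψ ω))⟫_ℂ ∂(iid d μ)) l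
          (𝓝 (∫ ω, ⟪φ ω, B ω (ψ ω)⟫_ℂ ∂(iid d μ))) := by
      intro l hl
      refine (hlim φ ψ 1 hφ hψ hφ1 hψ1 l hl).congr fun s => ?_
      refine integral_congr_ae ?_
      have hbd' : ∀ᵐ ω ∂(NB.PP d μ), ∀ x, |ω x| ≤ K := hbd
      have hφa' : ∀ᵐ ω ∂(NB.PP d μ), IsAC (U ω) (φ ω) := hφa
      have hac' : ∀ᵐ ω ∂(NB.PP d μ), IsAC (U ω) (ψ ω) := hac
      filter_upwards [hbd', hφa', hac'] with ω h1 h2 h3
      have a1 : NBA.ACvec ((MX.envP d K μ).W ω) (φ ω) :=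
        (MX.acv_iff K ω _).2 ((hac_iff ω h1 _).1 h2)
      have a2 : NBA.ACvec ((MX.envP d K μ).W ω) (ψ ω) :=
        (MX.acv_iff K ω _).2 ((hac_iff ω h1 _).1 h3)
      rw [MX.cps_inner a1 a2, hUx ω h1, hUx ω h1, ← hvA]
      rfl
    refine ⟨fun ω => B ω (ψ ω), hBf.meas ψ hψ, ?_, hconv atTop (Or.inl rfl),
      hconv atBot (Or.inr rfl)⟩
    filter_upwards [hac, hB'] with ω ⟨m, ⟨hm1, hm2⟩, hm3⟩ ⟨h1, h2, h3⟩
    have hsa := Pool.Agent.TH980.IM.HV_sa K ω
    have hmm : m = Pool.Agent.TH980.IM.spm hsa (ψ ω) :=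
      spm_unique hsa (ψ ω) m fun t => by rw [← hUx ω h1, hm2 t]
    have hac' : Pool.Agent.TH980.IM.spm hsa (ψ ω) ≪ volume := hmm ▸ hm3
    refine ⟨m, ⟨hm1, hm2⟩, fun t => ?_, ?_⟩
    · rw [hUx ω h1, inner_of_ngl hsa h2 hf1 hf2 h3 hac' t, ← hmm]
    · have h4 := norm_of_ngl hsa h2 (c := fun E => ((f E : ℝ) : ℂ))
        (Complex.measurable_ofReal.comp hf1) hac' (h3 (ψ ω))
      rw [← hmm] at h4
      have h5 : ∫⁻ E, ‖((f E : ℝ) : ℂ)‖ₑ ^ 2 ∂m = ENNReal.ofReal (∫ E, f E ^ 2 ∂m) := by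
        rw [ofReal_integral_eq_lintegral_ofReal]
        · refine lintegral_congr fun E => ?_
          rw [← ofReal_norm, Complex.norm_real, ← ENNReal.ofReal_pow (norm_nonneg _),
            Real.norm_eq_abs, sq_abs]
        · refine Integrable.of_bound (hf1.pow_const 2).aestronglyMeasurable (M ^ 2)
            (ae_of_all _ fun E => ?_)
          rw [norm_pow, Real.norm_eq_abs]
          exact pow_le_pow_left₀ (abs_nonneg _) (hf2 E) 2
        · exact ae_of_all _ fun E => sq_nonneg _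
      have h6 : ‖B ω (ψ ω)‖ₑ ^ 2 = ENNReal.ofReal (‖B ω (ψ ω)‖ ^ 2) := by
        rw [← ofReal_norm, ENNReal.ofReal_pow (norm_nonneg _)]
      rw [h6, h5] at h4
      exact (ENNReal.ofReal_eq_ofReal_iff (by positivity)
        (integral_nonneg fun E => sq_nonneg _)).1 h4

end Pool.Agent.Results.MP_d0f69c_mp.RelaxationOfACStates
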