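import Pool.Agent.T9h50.AN.Stat2

set_option autoImplicit false

open MeasureTheory

namespace Pool.Agent.Results.MP_d0f69c_mp.StationaryFrozen

/-- The Hilbert space `ℓ²(ℤᵈ)`. -/
def L2 (d : ℕ) : Type := lp (fun _ : Fin d → ℤ => ℂ) 2

/-- The `ℓ²` norm. -/
noncomputable instance instNorm (d : ℕ) : NormedAddCommGroup (L2 d) :=
  @lp.normedAddCommGroup (Fin d → ℤ) (fun _ => ℂ) 2 _ _

/-- The `ℓ²` inner product. -/
noncomputable instance instInner (d : ℕ) : InnerProductSpace ℂ (L2 d) :=
  @lp.instInnerProductSpace (Fin d → ℤ) ℂ _ (fun _ => ℂ) _ _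

/-- The underlying function of a vector of `ℓ²(ℤᵈ)`. -/
def coord {d : ℕ} (u : L2 d) : (Fin d → ℤ) → ℂ := (show lp (fun _ : Fin d → ℤ => ℂ) 2 from u)

/-- Bounded linear operators on a complex inner product space. -/
abbrev Op (E : Type) [NormedAddCommGroup E] [InnerProductSpace ℂ E] : Type := E →L[ℂ] E

/-- `-(discrete Laplacian) + ω` on functions (`true` codes `+1`, `false` codes `-1`). -/
noncomputable def act {d : ℕ} (ω : (Fin d → ℤ) → Bool) (u : (Fin d → ℤ) → ℂ)
    (j : Fin d → ℤ) : ℂ :=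
  -(∑ i : Fin d, ((u (j + Pi.single i 1) - u j) + (u (j - Pi.single i 1) - u j)))
    + (if ω j then (1 : ℂ) else -1) * u j

/-- The bounded operator `H` on `ℓ²(ℤᵈ)` acts as `-(discrete Laplacian) + ω`. -/
def IsAnderson {d : ℕ} (ω : (Fin d → ℤ) → Bool) (H : Op (L2 d)) : Prop :=
  ∀ u : L2 d, coord (H u) = act ω (coord u)

/-- `(H - z)⁻¹` -/
noncomputable def res {E : Type} [NormedAddCommGroup E] [InnerProductSpace ℂ E] (H : Op E) (z : ℂ) :
    Op E :=
  Ring.inverse (H - z • (1 : Op E))

/-- `μ` is the spectral measure of `ψ`: a finite measure with Borel transform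
`⟨ψ, (H - z)⁻¹ ψ⟩` off the real line. -/
def IsSpectralMeasure {E : Type} [NormedAddCommGroup E] [InnerProductSpace ℂ E]
    (H : Op E) (ψ : E) (μ : Measure ℝ) : Prop :=
  IsFiniteMeasure μ ∧ ∀ z : ℂ, z.im ≠ 0 →
    ∫ x, ((x : ℂ) - z)⁻¹ ∂μ = inner ℂ ψ (res H z ψ)

/-- All the spectral measures of `H` are singular with respect to Lebesgue measure. -/
def PurelySingular {E : Type} [NormedAddCommGroup E] [InnerProductSpace ℂ E] (H : Op E) : Prop :=
  ∀ (ψ : E) (μ : Measure ℝ), IsSpectralMeasure H ψ μ → μ ⟂ₘ volume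

/-- A partial configuration on `ℤ²`: `(π x).1 = true` says that the site `x` is frozen, and then
`(π x).2` is its frozen value. The potential `ω` is compatible with `π` if it has the frozen values
at the frozen sites. -/
def Compatible (π : (Fin 2 → ℤ) → Bool × Bool) (ω : (Fin 2 → ℤ) → Bool) : Prop :=
  ∀ x, (π x).1 = true → ω x = (π x).2

/-- For every `ε > 0` there is a translation invariant probability measure on partial configurations
of `ℤ²` such that a site is frozen with probability at most `ε`, and almost surely every `±1`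
potential compatible with the partial configuration, whatever its values at the other sites, has
purely singular spectrum. -/
theorem result :
    ∀ ε : ℝ, 0 < ε → ∃ m : Measure ((Fin 2 → ℤ) → Bool × Bool),
      IsProbabilityMeasure m ∧
      (∀ a : Fin 2 → ℤ, m.map (fun π x => π (x + a)) = m) ∧
      m {π | (π 0).1 = true} ≤ ENNReal.ofReal ε ∧
      ∀ᵐ π ∂m, ∀ ω : (Fin 2 → ℤ) → Bool, Compatible π ω →
        ∀ H : Op (L2 2), IsAnderson ω H → PurelySingular H := by
  intro ε hε
  obtain ⟨m, h1, h2, h3, h4⟩ := T9h50.AN.exists_stationary hε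
  refine ⟨m, h1, h2, h3, ?_⟩
  filter_upwards [h4] with π hπ ω hω H hH ψ μ hμ
  have := hμ.1
  exact T9h50.AN.purely_singular (hπ ω hω) (H := H) (fun u j => congrFun (hH u) j) ψ μ hμ.2

end Pool.Agent.Results.MP_d0f69c_mp.StationaryFrozen
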